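import Pool.Agent.N896.KS.SEG2

/-!
# Project KS, part SEG: the self-energy lemma for a general law
-/

set_option linter.all false

namespace Pool.Agent.N896.KS

open MeasureTheory Filter Pool.Agent.W792.LL Pool.Agent.W792.WA Pool.Agent.N659.HB
open Pool.Agent.N916.HB (OA OA_apply ne_I cay_norm cay_mul dc_apply dc_norm mS qS toC_mS X_ne m_rel
  q_rel RR inv_alg ring_exp sm_of int_apply opr_bound sc1)
open scoped Topology ENNReal

noncomputable section

/-- the estimate of the self-energy at one momentum -/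
theorem sc2 (x G A : ℂ) (α M b κ : ℝ) (hα : 0 < α) (hb : 0 < b)
    (hκ : 0 ≤ κ) (hx : x ≠ 0) (hM : ‖(α : ℂ) / x‖ ≤ M) (hbM : κ ^ 2 = b * M)
    (hnκ : 64 * κ ≤ 1) (hA : ‖A‖ ≤ α * b)
    (ht : ‖x - x * G * x + A‖ ≤ 49 * α * b * κ) :
    G ≠ 0 ∧ ‖1 / G - x + A‖ ≤ 50 * α * b * κ := by
  have hκ16 : κ ≤ 1 / 64 := by linarith
  set t := x - x * G * x with htdef
  have ht2 : ‖t‖ ≤ 2 * (α * b) := by
    have h1 : ‖t‖ ≤ ‖t + A‖ + ‖A‖ := by
      have : t = (t + A) - A := by ring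
      calc ‖t‖ = ‖(t + A) - A‖ := by rw [← this]
        _ ≤ _ := norm_sub_le _ _
    have h2 : 49 * α * b * κ ≤ α * b := by
      have : 49 * α * b * κ = (α * b) * (49 * κ) := by ring
      rw [this]
      have h3 : 49 * κ ≤ 1 := by linarith
      have h4 : 0 ≤ α * b := by positivity
      nlinarith
    linarith
  have htx : ‖t / x‖ ≤ 2 * κ ^ 2 := by
    have e : t / x = (t / α) * ((α : ℂ) / x) := by
      have : (α : ℂ) ≠ 0 := by exact_mod_cast hα.ne'
      field_simp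
    rw [e, norm_mul, norm_div, Complex.norm_real, Real.norm_of_nonneg hα.le]
    have h1 : ‖t‖ / α ≤ 2 * b := by
      rw [div_le_iff₀ hα]
      linarith
    calc ‖t‖ / α * ‖(α : ℂ) / x‖ ≤ (2 * b) * M := by gcongr
      _ = 2 * κ ^ 2 := by rw [hbM]; ring
  have hk2 : 2 * κ ^ 2 ≤ 1 / 128 := by nlinarith
  have htx1 : ‖t / x‖ ≤ 1 / 128 := htx.trans hk2
  have h1t : 1 - t / x ≠ 0 := by
    intro h
    have : t / x = 1 := by linear_combination -h
    rw [this, norm_one] at htx1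
    norm_num at htx1
  have hG : G = (1 - t / x) / x := by
    rw [htdef]
    field_simp
    ring
  have hG0 : G ≠ 0 := by
    rw [hG]
    exact div_ne_zero h1t hx
  refine ⟨hG0, ?_⟩
  have e1 : 1 / G - x = t + t * (t / x) / (1 - t / x) := by
    rw [hG, one_div_div]
    rw [eq_comm, ← sub_eq_zero]
    have : x - t ≠ 0 := by
      intro h
      apply h1t
      have : t = x := by linear_combination -h
      rw [this, div_self hx, sub_self]
    field_simp
    ring
  have e2 : 1 / G - x + A = (t + A) + t * (t / x) / (1 - t / x) := by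
    rw [e1]
    ring
  rw [e2]
  refine (norm_add_le _ _).trans ?_
  have h5 : ‖t * (t / x) / (1 - t / x)‖ ≤ α * b * κ := by
    rw [norm_div, norm_mul]
    have h6 : 127 / 128 ≤ ‖1 - t / x‖ := by
      have := norm_sub_norm_le (1 : ℂ) (t / x)
      rw [norm_one] at this
      linarith
    rw [div_le_iff₀ (by linarith)]
    have h7 : ‖t‖ * ‖t / x‖ ≤ (2 * (α * b)) * (2 * κ ^ 2) := by gcongr
    have h8 : (2 * (α * b)) * (2 * κ ^ 2) ≤ α * b * κ * (127 / 128) := by
      have h9 : 0 ≤ α * b * κ := by positivity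
      have : (2 * (α * b)) * (2 * κ ^ 2) = α * b * κ * (4 * κ) := by ring
      rw [this]
      apply mul_le_mul_of_nonneg_left _ h9
      linarith
    have h9 : α * b * κ * (127 / 128) ≤ α * b * κ * ‖1 - t / x‖ := by
      apply mul_le_mul_of_nonneg_left h6
      positivity
    linarith
  linarith

theorem main : S_SYMB → S_CSYM → S_PSI → S_CX → S_OPR → S_DIA → S_CGI → S_SEG := by
  intro hS hC hP hCX hO hD hH ν _ d n α c M θ b κ X hα hν hν0 hc hX hn hb hκ hM hθ hb1 h1 h2 h3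
    h64 h4 h5
  obtain ⟨h0, h⟩ := X_ne hc hX
  have hm : ‖mS X h‖ < 1 := by
    obtain ⟨q, hq0, hq1, hq⟩ := hCX.2.2.1 0 ‖X‖ c hc
    refine lt_of_le_of_lt ((ContinuousMap.norm_le _ hq0).2 fun k => ?_) hq1
    have := hq (X k) 0 (X.norm_coe_le_norm k) (hX k) (by simp)
    rw [← toC_mS X h] at *
    have e : (toC fun k => cayx (X k) 0) k = cayx (X k) 0 := by
      rw [toC_mS X h]
      simp [mS, cayx]
    rw [e]
    exact this
  have hT := T_est hO hD hC hS hH ν hα hν hν0 hc X hX h h0 hm hn hb hκ hM hθ hb1 h1 h2 h3 h4 h5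
  set s₂ : ℂ := ((∫ x, (x / α) ^ 2 ∂ν : ℝ) : ℂ) with hs₂
  have hs1 : ‖s₂‖ ≤ 1 := by
    rw [hs₂, Complex.norm_real]
    have : ‖∫ x, (x / α) ^ 2 ∂ν‖ ≤ 1 * (ν.real Set.univ) := by
      refine norm_integral_le_of_norm_le_const ?_
      filter_upwards [hν] with x hx
      rw [norm_pow, norm_div, Real.norm_eq_abs, Real.norm_of_nonneg hα.le]
      have h6 : |x| / α ≤ 1 := (div_le_one hα).2 hx
      have h7 : 0 ≤ |x| / α := by positivity
      exact pow_le_one₀ h7 h6
    simpa using this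
  have hA : ‖(α : ℂ) * s₂ * ∫ p, (α : ℂ) / X p‖ ≤ α * b := by
    rw [norm_mul, norm_mul, Complex.norm_real, Real.norm_of_nonneg hα.le]
    have h6 : ‖∫ p, (α : ℂ) / X p‖ ≤ ∫ p, ‖(α : ℂ) / X p‖ := norm_integral_le_integral_norm _
    have h7 : ‖∫ p, (α : ℂ) / X p‖ ≤ b := h6.trans hb1
    calc α * ‖s₂‖ * ‖∫ p, (α : ℂ) / X p‖ ≤ α * 1 * b := by gcongr
      _ = α * b := by ring
  have hTk : ∀ k, ‖X k - X k * GS ν X h k * X k + (α : ℂ) * s₂ * ∫ p, (α : ℂ) / X p‖ ≤
      49 * α * b * κ := by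
    intro k
    have := (ContinuousMap.norm_coe_le_norm _ k).trans hT
    simpa using this
  have hk : ∀ k, GS ν X h k ≠ 0 ∧ ‖1 / GS ν X h k - X k + (α : ℂ) * s₂ * ∫ p, (α : ℂ) / X p‖ ≤
      50 * α * b * κ := fun k =>
    sc2 (X k) (GS ν X h k) _ α M b κ hα hb hκ (h0 k) (hM k) h3 h64 hA (hTk k)
  have hps := (hP ν d ‖mS X h‖ (mS X h) (mS X h) (norm_nonneg _) hm le_rfl le_rfl).1
  have hsc : ∀ k, (1 / GS ν X h k - X k).im ≤ 0 ∧
      psi ν (mS X h) k = cayx (1 / GS ν X h k - X k) 0 := by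
    intro k
    obtain ⟨a1, a2, a3, -⟩ := hps k
    have hG := (hk k).1
    have eG : GS ν X h k = 1 / (2 * Complex.I) *
        ((1 - (1 - mS X h k) * csym ν (mS X h) k) * (mS X h k - 1)) := by
      simp [GS]
    rw [a2] at a3
    rw [eG] at hG
    have := sc1 (X k) (csym ν (mS X h) k) (mS X h k) (h k) rfl a1 hG a3
    rw [eG, a2]
    exact this
  refine ⟨⟨fun k => 1 / GS ν X h k - X k, ?_⟩, fun k => (hsc k).1, fun k => ?_, fun k => (hk k).2⟩
  · exact (continuous_const.div (GS ν X h).continuous fun k => (hk k).1).sub X.continuous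
  · rw [toC_mS X h]
    exact (hsc k).2

end

end Pool.Agent.N896.KS
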