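import Pool.Agent.N916.HB.SE
import Pool.Agent.N659.HB.Stm3

/-!
# Project KS, part SEG: the self-energy lemma for a general law
-/

set_option linter.all false

namespace Pool.Agent.N896.KS

open MeasureTheory Filter Pool.Agent.W792.LL Pool.Agent.W792.WA Pool.Agent.N659.HB
open Pool.Agent.N916.HB (OA OA_apply ne_I cay_norm cay_mul dc_apply dc_norm mS qS toC_mS X_ne m_rel
  q_rel RR inv_alg ring_exp sm_of int_apply opr_bound sc1)
open scoped Topology ENNReal

noncomputable section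

/-- the normalized potential at a site -/
def uc (α y : ℝ) : ℂ := ((max (-1) (min 1 (y / α)) : ℝ) : ℂ)

theorem uc_norm (α y : ℝ) : ‖uc α y‖ ≤ 1 := by
  unfold uc
  rw [Complex.norm_real, Real.norm_eq_abs, abs_le]
  constructor
  · exact le_max_left _ _
  · exact max_le (by norm_num) (min_le_left _ _)

theorem uc_conj (α y : ℝ) : (starRingEnd ℂ) (uc α y) = uc α y := by
  unfold uc
  exact Complex.conj_ofReal _

theorem uc_mul {α y : ℝ} (hα : 0 < α) (h : |y| ≤ α) : (α : ℂ) * uc α y = y := by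
  unfold uc
  rw [abs_le] at h
  have h1 : y / α ≤ 1 := by rw [div_le_one hα]; exact h.2
  have h2 : -1 ≤ y / α := by rw [le_div_iff₀ hα]; linarith [h.1]
  rw [min_eq_right h1, max_eq_right h2, ← Complex.ofReal_mul, mul_div_cancel₀ _ hα.ne']

theorem ae_Pn (ν : Measure ℝ) [IsProbabilityMeasure ν] {α : ℝ} (h : ∀ᵐ x ∂ν, |x| ≤ α) (d : ℕ) :
    ∀ᵐ v ∂(Pn ν (Fin d → ℤ)), ∀ x, |v x| ≤ α := by
  rw [ae_all_iff]
  intro x
  have h' := (measurePreserving_eval_infinitePi (fun _ : Fin d → ℤ => ν) x)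
  exact h'.quasiMeasurePreserving.ae h

variable {d : ℕ}

theorem ud_apply (hD : S_DIA) (α : ℝ) (v : (Fin d → ℤ) → ℝ) (u : l2 (Fin d → ℤ)) (x : Fin d → ℤ) :
    ud α v u x = uc α (v x) * u x :=
  (hD (Fin d → ℤ) (fun x => uc α (v x)) (fun x => uc_norm _ _)).1 u x

theorem ud_norm (hD : S_DIA) (α : ℝ) (v : (Fin d → ℤ) → ℝ) : ‖ud α v‖ ≤ 1 :=
  (hD (Fin d → ℤ) (fun x => uc α (v x)) (fun x => uc_norm _ _)).2

theorem dcV (hD : S_DIA) {α : ℝ} (hα : 0 < α) {v : (Fin d → ℤ) → ℝ}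
    (hv : ∀ x, |v x| ≤ α) :
    dc v * ((α : ℂ) • ud α v - Complex.I • 1) = (α : ℂ) • ud α v + Complex.I • 1 ∧
    ((α : ℂ) • ud α v - Complex.I • 1) * dc v = (α : ℂ) • ud α v + Complex.I • 1 := by
  constructor
  · ext u x
    have h := cay_mul (v x)
    simp only [ContinuousLinearMap.mul_apply, ContinuousLinearMap.sub_apply,
      ContinuousLinearMap.add_apply, ContinuousLinearMap.smul_apply,
      ContinuousLinearMap.one_apply, lp.coeFn_add, lp.coeFn_sub, lp.coeFn_smul, Pi.add_apply,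
      Pi.sub_apply, Pi.smul_apply, smul_eq_mul, dc_apply hD, ud_apply hD α]
    rw [← mul_assoc (α : ℂ), uc_mul hα (hv x)]
    linear_combination (u x) * h
  · ext u x
    have h := cay_mul (v x)
    simp only [ContinuousLinearMap.mul_apply, ContinuousLinearMap.sub_apply,
      ContinuousLinearMap.add_apply, ContinuousLinearMap.smul_apply,
      ContinuousLinearMap.one_apply, lp.coeFn_add, lp.coeFn_sub, lp.coeFn_smul, Pi.add_apply,
      Pi.sub_apply, Pi.smul_apply, smul_eq_mul, dc_apply hD, ud_apply hD α]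
    rw [← mul_assoc (α : ℂ), ← mul_assoc (α : ℂ), uc_mul hα (hv x)]
    linear_combination (u x) * h

theorem ud_inner (hD : S_DIA) (α : ℝ) (v : (Fin d → ℤ) → ℝ) (u w : l2 (Fin d → ℤ)) :
    inner ℂ (ud α v u) w = inner ℂ u (ud α v w) := by
  rw [lp.inner_eq_tsum, lp.inner_eq_tsum]
  refine tsum_congr fun x => ?_
  rw [ud_apply hD α, ud_apply hD α]
  simp only [RCLike.inner_apply, map_mul, uc_conj]
  ring

theorem RR_inv (hO : S_OPR) (hD : S_DIA) (hC : S_CSYM) {α : ℝ} (hα : 0 < α)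
    (X : C(UnitAddTorus (Fin d), ℂ)) (h : ∀ k, X k - Complex.I ≠ 0) (hm : ‖mS X h‖ < 1)
    {v : (Fin d → ℤ) → ℝ} (hv : ∀ x, |v x| ≤ α) :
    (opr X + (α : ℂ) • ud α v) * RR X h v = 1 ∧ RR X h v * (opr X + (α : ℂ) • ud α v) = 1 := by
  have hc := ((hC (tp α) d (mS X h) hm).1 v).2
  have hI : (2 * Complex.I) ≠ 0 := by simp
  have e1 := congrArg (OA hO d) (m_rel X h).1
  have e2 := congrArg (OA hO d) (m_rel X h).2
  have e3 : (OA hO d) ((mS X h - 1) * (X - Complex.I • 1)) =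
      (OA hO d) (Complex.I • 1 + Complex.I • 1) := by
    rw [mul_comm, (m_rel X h).2]
  simp only [map_mul, map_sub, map_add, map_smul, map_one, OA_apply] at e1 e2 e3
  rw [← two_mul] at e2 e3
  have h2 : (1 / (2 * Complex.I)) • ((2 : l2 (Fin d → ℤ) →L[ℂ] l2 (Fin d → ℤ)) *
      (Complex.I • 1)) = 1 := by
    rw [two_mul (Complex.I • (1 : l2 (Fin d → ℤ) →L[ℂ] l2 (Fin d → ℤ))), ← add_smul, smul_smul,
      ← two_mul, one_div_mul_cancel hI, one_smul]
  have hinv := inv_alg (A := l2 (Fin d → ℤ) →L[ℂ] l2 (Fin d → ℤ)) (opr X) (opr (mS X h))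
    ((α : ℂ) • ud α v) (dc v) (rsv (mS X h) v) (Complex.I • 1) (fun a => by simp)
    ((1 / (2 * Complex.I)) • 1) (by
      rw [smul_mul_assoc, one_mul, h2]) e1 (dcV hD hα hv).1 (dcV hD hα hv).2 e3 e2
    (by
      rw [smul_mul_smul_comm, one_mul, Complex.I_mul_I, neg_smul, one_smul]) hc.1 hc.2
  unfold RR
  constructor
  · rw [mul_smul_comm, hinv.1, h2]
  · rw [smul_mul_assoc, hinv.2, h2]

theorem RR_norm (hO : S_OPR) (hD : S_DIA) (hC : S_CSYM) (hS : S_SYMB) {α c : ℝ} (hα : 0 < α)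
    (hc : 0 < c) (X : C(UnitAddTorus (Fin d), ℂ)) (hX : ∀ k, (X k).im ≤ -c)
    (h : ∀ k, X k - Complex.I ≠ 0) (hm : ‖mS X h‖ < 1)
    {v : (Fin d → ℤ) → ℝ} (hv : ∀ x, |v x| ≤ α) (w : l2 (Fin d → ℤ)) :
    ‖RR X h v w‖ ≤ ‖w‖ / c := by
  have hinv := (RR_inv hO hD hC hα X h hm hv).1
  set u := RR X h v w with hu
  have hw : (opr X + (α : ℂ) • ud α v) u = w := by
    have := congrArg (fun T : l2 (Fin d → ℤ) →L[ℂ] l2 (Fin d → ℤ) => T w) hinv
    simpa using this
  have hpos := ((hS d).2.2.1 (Complex.I • X - (c : ℂ) • 1)).2 (by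
    intro k
    simp
    linarith [hX k]) u
  have e1 : opr (Complex.I • X - (c : ℂ) • 1) = Complex.I • opr X - (c : ℂ) • 1 := by
    have := map_sub (OA hO d) (Complex.I • X) ((c : ℂ) • 1)
    rw [map_smul, map_smul, map_one] at this
    exact this
  rw [e1] at hpos
  have hreal : (inner ℂ u (ud α v u)).im = 0 := by
    have h1 := ud_inner hD α v u u
    have h2 : (starRingEnd ℂ) (inner ℂ u (ud α v u)) = inner ℂ u (ud α v u) := by
      rw [inner_conj_symm]
      exact h1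
    exact Complex.conj_eq_iff_im.1 h2
  have e2 : (inner ℂ u ((Complex.I • opr X - (c : ℂ) • 1) u)).re =
      (inner ℂ u (Complex.I • w)).re - c * ‖u‖ ^ 2 := by
    rw [← hw]
    simp only [ContinuousLinearMap.sub_apply, ContinuousLinearMap.add_apply,
      ContinuousLinearMap.smul_apply, ContinuousLinearMap.one_apply, inner_sub_right,
      inner_add_right, inner_smul_right, smul_add, Complex.sub_re, Complex.add_re,
      inner_self_eq_norm_sq_to_K]
    have : (Complex.I * ((α : ℂ) * inner ℂ u (ud α v u))).re = 0 := by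
      simp [hreal]
    rw [this, add_zero]
    congr 1
    show ((c : ℂ) * ((‖u‖ : ℝ) : ℂ) ^ 2).re = _
    rw [← Complex.ofReal_pow, ← Complex.ofReal_mul, Complex.ofReal_re]
  rw [e2] at hpos
  have h3 : (inner ℂ u (Complex.I • w)).re ≤ ‖u‖ * ‖w‖ := by
    refine (Complex.re_le_norm _).trans ((norm_inner_le_norm _ _).trans ?_)
    rw [norm_smul, Complex.norm_I, one_mul]
  rw [le_div_iff₀ hc]
  by_cases h0 : ‖u‖ = 0
  · rw [h0]
    simp
  · have : 0 < ‖u‖ := lt_of_le_of_ne (norm_nonneg _) (Ne.symm h0)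
    have h4 : ‖u‖ * (‖u‖ * c) ≤ ‖u‖ * ‖w‖ := by nlinarith
    exact le_of_mul_le_mul_left h4 this




/-- the averaged resolvent -/
def GS (ν : Measure ℝ) [IsProbabilityMeasure ν] (X : C(UnitAddTorus (Fin d), ℂ)) (h : ∀ k, X k - Complex.I ≠ 0) :
    C(UnitAddTorus (Fin d), ℂ) :=
  (1 / (2 * Complex.I)) •
    ((1 - (1 - mS X h) * csym ν (mS X h)) * (mS X h - 1))

theorem RR_exp (ν : Measure ℝ) [IsProbabilityMeasure ν] (hO : S_OPR) (hD : S_DIA) (hC : S_CSYM)
    (hS : S_SYMB) {c : ℝ} (hc : 0 < c) (X : C(UnitAddTorus (Fin d), ℂ)) (hX : ∀ k, (X k).im ≤ -c)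
    (h : ∀ k, X k - Complex.I ≠ 0) (hm : ‖mS X h‖ < 1) (u : l2 (Fin d → ℤ)) :
    Integrable (fun v => RR X h v u) (Pn ν (Fin d → ℤ)) ∧
    ∫ v, RR X h v u ∂(Pn ν (Fin d → ℤ)) = opr (GS ν X h) u := by
  obtain ⟨hC1, hC2, hC3⟩ := hC ν d (mS X h) hm
  set m := mS X h with hmdef
  set u' := (opr m - 1) u with hu'
  have sm1 : StronglyMeasurable fun v => rsv m v u' := sm_of _ fun x => (hC2 u' x).1
  have sm2 : StronglyMeasurable fun v => dc v (rsv m v u') := sm_of _ fun x => (hC2 u' x).2.1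
  have b1 : ∀ v, ‖rsv m v u'‖ ≤ 1 / (1 - ‖m‖) * ‖u'‖ := fun v =>
    (ContinuousLinearMap.le_opNorm _ _).trans
      (mul_le_mul_of_nonneg_right (hC1 v).1 (norm_nonneg _))
  have b2 : ∀ v, ‖dc v (rsv m v u')‖ ≤ 1 / (1 - ‖m‖) * ‖u'‖ := fun v => by
    refine (ContinuousLinearMap.le_opNorm _ _).trans ?_
    have := dc_norm hD v
    have h2 := b1 v
    have h3 : 0 ≤ ‖rsv m v u'‖ := norm_nonneg _
    nlinarith
  have i1 : Integrable (fun v => rsv m v u') (Pn ν (Fin d → ℤ)) :=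
    Integrable.of_bound sm1.aestronglyMeasurable _ (Eventually.of_forall b1)
  have i2 : Integrable (fun v => dc v (rsv m v u')) (Pn ν (Fin d → ℤ)) :=
    Integrable.of_bound sm2.aestronglyMeasurable _ (Eventually.of_forall b2)
  have e0 : (fun v => RR X h v u) =
      fun v => (1 / (2 * Complex.I)) • (rsv m v u' - dc v (rsv m v u')) := by
    funext v
    simp only [RR, ContinuousLinearMap.smul_apply, ContinuousLinearMap.mul_apply,
      ContinuousLinearMap.sub_apply, ContinuousLinearMap.one_apply]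
    rfl
  rw [e0]
  refine ⟨?_, ?_⟩
  · have i3 := (i1.sub i2).smul (1 / (2 * Complex.I))
    exact i3
  rw [integral_smul, integral_sub i1 i2]
  have e1 : ∫ v, rsv m v u' ∂(Pn ν (Fin d → ℤ)) = u' + opr (m * csym ν m) u' := by
    ext x
    rw [int_apply _ i1, (hC2 u' x).2.2.2]
    simp
  have e2 : ∫ v, dc v (rsv m v u') ∂(Pn ν (Fin d → ℤ)) = opr (csym ν m) u' := by
    ext x
    rw [int_apply _ i2, (hC2 u' x).2.2.1]
  rw [e1, e2]
  have e3 : opr (GS ν X h) = (1 / (2 * Complex.I)) •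
      ((1 - (1 - opr m) * opr (csym ν m)) * (opr m - 1)) := by
    rw [← OA_apply hO, GS, map_smul, map_mul, map_sub, map_sub, map_mul, map_sub, map_one]
    rfl
  have e4 : opr (m * csym ν m) = opr m * opr (csym ν m) := (hO d _ _).2.2.1
  rw [e3, e4]
  simp only [ContinuousLinearMap.smul_apply, ContinuousLinearMap.mul_apply,
    ContinuousLinearMap.sub_apply, ContinuousLinearMap.one_apply]
  congr 1
  have hu2 : (opr m) u - u = u' := by
    rw [hu']
    simp
  rw [hu2]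
  abel

theorem main_id (hO : S_OPR) (hD : S_DIA) (hC : S_CSYM) {α : ℝ} (hα : 0 < α)
    (X : C(UnitAddTorus (Fin d), ℂ)) (h : ∀ k, X k - Complex.I ≠ 0) (h0 : ∀ k, X k ≠ 0)
    (hm : ‖mS X h‖ < 1)
    {v : (Fin d → ℤ) → ℝ} (hv : ∀ x, |v x| ≤ α) (n : ℕ) :
    opr X - opr X * RR X h v * opr X =
      (α : ℂ) • ((∑ j ∈ Finset.range (2 * n + 1), (-1) ^ j * cg α (qS α X h0) v j) -
        cg α (qS α X h0) v n * ((α : ℂ) • RR X h v) * cg α (qS α X h0) v n) := by
  obtain ⟨hr1, hr2⟩ := RR_inv hO hD hC hα X h hm hv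
  set R := RR X h v
  set Q := opr (qS α X h0) with hQ
  have hXQ : opr X * Q = (α : ℂ) • 1 := by
    have := congrArg (OA hO d) (q_rel α X h0)
    rw [map_mul, map_smul, map_one] at this
    exact this
  have hQX : Q * opr X = (α : ℂ) • 1 := by
    have := congrArg (OA hO d) (q_rel α X h0)
    rw [mul_comm, map_mul, map_smul, map_one] at this
    exact this
  have h1 : (α : ℂ) • R = Q - Q * ud α v * ((α : ℂ) • R) := by
    have : Q * ((opr X + (α : ℂ) • ud α v) * R) = Q := by rw [hr1, mul_one]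
    have e : Q * ((opr X + (α : ℂ) • ud α v) * R) = (α : ℂ) • R + Q * ud α v * ((α : ℂ) • R) := by
      rw [add_mul, mul_add, ← mul_assoc, hQX, smul_mul_assoc, one_mul, smul_mul_assoc,
        mul_smul_comm, mul_smul_comm, mul_assoc]
    rw [e] at this
    rw [eq_sub_iff_add_eq]
    exact this
  have h2 : (α : ℂ) • R = Q - ((α : ℂ) • R) * ud α v * Q := by
    have : (R * (opr X + (α : ℂ) • ud α v)) * Q = Q := by rw [hr2, one_mul]
    have e : (R * (opr X + (α : ℂ) • ud α v)) * Q = (α : ℂ) • R + ((α : ℂ) • R) * ud α v * Q := by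
      rw [mul_add, add_mul, mul_assoc R, hXQ, mul_smul_comm, mul_one, mul_smul_comm,
        smul_mul_assoc, smul_mul_assoc, smul_mul_assoc]
    rw [e] at this
    rw [eq_sub_iff_add_eq]
    exact this
  have h3 := ring_exp (ud α v) Q ((α : ℂ) • R) h1 h2 n
  have h4 : opr X - opr X * R * opr X = (α : ℂ) • (ud α v - ud α v * ((α : ℂ) • R) * ud α v) := by
    have a1 : opr X * R = 1 - (α : ℂ) • ud α v * R := by
      rw [eq_sub_iff_add_eq, ← add_mul]
      exact hr1
    have a2 : R * opr X = 1 - R * ((α : ℂ) • ud α v) := by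
      rw [eq_sub_iff_add_eq, ← mul_add]
      exact hr2
    have a3 : opr X * R * opr X = opr X - (α : ℂ) • ud α v + (α : ℂ) • ud α v * R * ((α : ℂ) • ud α v) := by
      rw [mul_assoc, a2, mul_sub, mul_one, ← mul_assoc, a1, sub_mul, one_mul]
      abel
    rw [a3, smul_sub, mul_smul_comm, smul_mul_assoc, smul_mul_assoc, mul_smul_comm,
      smul_mul_assoc]
    abel
  rw [h4, h3]
  rfl

theorem cg_adj (hD : S_DIA) (hO : S_OPR) (hS : S_SYMB) (α : ℝ) (q : C(UnitAddTorus (Fin d), ℂ))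
    (v : (Fin d → ℤ) → ℝ) (n : ℕ) (w z : l2 (Fin d → ℤ)) :
    inner ℂ w (cg α q v n z) = inner ℂ (cg α (star q) v n w) z := by
  have ho : ∀ u z : l2 (Fin d → ℤ), inner ℂ u (opr q z) = inner ℂ (opr (star q) u) z := by
    intro u z
    have h1 := (hS d).1 (star q) 1 u z
    rw [star_star, mul_one] at h1
    have h2 : opr (1 : C(UnitAddTorus (Fin d), ℂ)) = 1 := (hO d 1 1).2.2.2.2.2.1
    rw [h2] at h1
    exact h1.symm
  have hp : ∀ (n : ℕ) (w z : l2 (Fin d → ℤ)), inner ℂ w (((ud α v * opr q) ^ n) z) =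
      inner ℂ (((opr (star q) * ud α v) ^ n) w) z := by
    intro n
    induction n with
    | zero => intro w z; simp
    | succ n ih =>
      intro w z
      rw [pow_succ', pow_succ, ContinuousLinearMap.mul_apply, ContinuousLinearMap.mul_apply,
        ContinuousLinearMap.mul_apply, ContinuousLinearMap.mul_apply, ← ud_inner hD α, ho, ih]
  have hx : ud α v * (opr (star q) * ud α v) ^ n = (ud α v * opr (star q)) ^ n * ud α v :=
    (mul_pow_mul _ _ _).symm
  unfold cg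
  rw [← hx, ContinuousLinearMap.mul_apply, ContinuousLinearMap.mul_apply, hp, ud_inner hD α]

theorem cg_bound (hD : S_DIA) (hO : S_OPR) (α : ℝ) (q : C(UnitAddTorus (Fin d), ℂ))
    (v : (Fin d → ℤ) → ℝ) (n : ℕ) (z : l2 (Fin d → ℤ)) : ‖cg α q v n z‖ ≤ ‖q‖ ^ n * ‖z‖ := by
  have hx : ∀ z, ‖ud α v z‖ ≤ ‖z‖ := fun z => by
    refine (ContinuousLinearMap.le_opNorm _ _).trans ?_
    have := ud_norm hD α v
    have h2 : 0 ≤ ‖z‖ := norm_nonneg _
    nlinarith
  have hq : ∀ z, ‖opr q z‖ ≤ ‖q‖ * ‖z‖ := fun z =>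
    (ContinuousLinearMap.le_opNorm _ _).trans
      (mul_le_mul_of_nonneg_right (hO d q q).2.1 (norm_nonneg _))
  have hp : ∀ (n : ℕ) (z : l2 (Fin d → ℤ)), ‖((ud α v * opr q) ^ n) z‖ ≤ ‖q‖ ^ n * ‖z‖ := by
    intro n
    induction n with
    | zero => intro z; simp
    | succ n ih =>
      intro z
      rw [pow_succ', ContinuousLinearMap.mul_apply, ContinuousLinearMap.mul_apply]
      refine (hx _).trans ((hq _).trans ?_)
      rw [pow_succ', mul_assoc]
      exact mul_le_mul_of_nonneg_left (ih z) (norm_nonneg _)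
  unfold cg
  rw [ContinuousLinearMap.mul_apply]
  refine (hp n _).trans ?_
  exact mul_le_mul_of_nonneg_left (hx z) (by positivity)

end

end Pool.Agent.N896.KS
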