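import Pool.Agent.N896.KS.SEG1

/-!
# Project KS, part SEG: the self-energy lemma for a general law
-/

set_option linter.all false

namespace Pool.Agent.N896.KS

open MeasureTheory Filter Pool.Agent.W792.LL Pool.Agent.W792.WA Pool.Agent.N659.HB
open Pool.Agent.N916.HB (OA OA_apply ne_I cay_norm cay_mul dc_apply dc_norm mS qS toC_mS X_ne m_rel
  q_rel RR inv_alg ring_exp sm_of int_apply opr_bound sc1)
open scoped Topology ENNReal

noncomputable section

theorem geo2 (m : ℕ) :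
    ∑ j ∈ Finset.Ico 2 (m + 2), (j : ℝ) * (1 / 2 : ℝ) ^ (j - 2) =
      6 - 2 * ((m : ℝ) + 3) * (1 / 2) ^ m := by
  induction m with
  | zero => norm_num
  | succ m ih =>
    rw [show m + 1 + 2 = (m + 2) + 1 by ring, Finset.sum_Ico_succ_top (by omega), ih]
    have e : m + 2 - 2 = m := by omega
    rw [e, pow_succ]
    push_cast
    ring

variable {d : ℕ}

theorem T_est (hO : S_OPR) (hD : S_DIA) (hC : S_CSYM) (hS : S_SYMB) (hH : S_CGI)
    (ν : Measure ℝ) [IsProbabilityMeasure ν]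
    {n : ℕ} {α c M θ b κ : ℝ} (hα : 0 < α) (hν : ∀ᵐ x ∂ν, |x| ≤ α) (hν0 : ∫ x, x ∂ν = 0)
    (hc : 0 < c) (X : C(UnitAddTorus (Fin d), ℂ)) (hX : ∀ k, (X k).im ≤ -c)
    (h : ∀ k, X k - Complex.I ≠ 0) (h0 : ∀ k, X k ≠ 0) (hm : ‖mS X h‖ < 1) (hn : 1 ≤ n)
    (hb : 0 < b) (hκ : 0 ≤ κ) (hM : ∀ k, ‖(α : ℂ) / X k‖ ≤ M)
    (hθ : (∫ k, ‖(α : ℂ) / X k‖ ^ 2) ≤ θ) (hb1 : (∫ k, ‖(α : ℂ) / X k‖) ≤ b) (h1 : θ ≤ b * M)
    (h2 : b ≤ M) (h3 : κ ^ 2 = b * M) (h4 : 16 * n * κ ≤ 1)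
    (h5 : α / c * (2 * ((4 * n * κ) ^ n) ^ 2) ≤ b * κ) :
    ‖X - X * GS ν X h * X + ((α : ℂ) * ((∫ x, (x / α) ^ 2 ∂ν : ℝ) : ℂ) * ∫ p, (α : ℂ) / X p) • 1‖
      ≤ 49 * α * b * κ := by
  have hM0 : 0 ≤ M := (norm_nonneg _).trans (hM 0)
  set q := qS α X h0 with hq
  have hqM : ‖q‖ ≤ M := (ContinuousMap.norm_le _ hM0).2 hM
  have hqsM : ‖star q‖ ≤ M := (ContinuousMap.norm_le _ hM0).2 fun k => by
    show ‖star (q k)‖ ≤ M
    rw [norm_star]
    exact hM k
  obtain ⟨c1, c2, c3, c4, c5⟩ := hH ν d q α M θ b κ hα hν hν0 hb.le hκ hqM hθ hb1 h1 h2 h3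
  have hs1 : ∀ k, ‖(star q) k‖ = ‖(α : ℂ) / X k‖ := fun k => by
    show ‖star (q k)‖ = _
    rw [norm_star]
    rfl
  obtain ⟨s1, s2, -⟩ := hH ν d (star q) α M θ b κ hα hν hν0 hb.le hκ hqsM
    (by simpa only [hs1] using hθ) (by simpa only [hs1] using hb1) h1 h2 h3
  refine opr_bound hS _ _ (by positivity) fun w u hw hu => ?_
  set P := Pn ν (Fin d → ℤ) with hP
  set s₂ : ℂ := ((∫ x, (x / α) ^ 2 ∂ν : ℝ) : ℂ) with hs₂
  -- integrability
  have ic : ∀ (q' : C(UnitAddTorus (Fin d), ℂ)), (∀ (k : ℕ) (u : l2 (Fin d → ℤ)) (x : Fin d → ℤ),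
      Measurable fun v => cg α q' v k u x) → ∀ (j : ℕ) (u : l2 (Fin d → ℤ)),
      Integrable (fun v => cg α q' v j u) P ∧ Integrable (fun v => ‖cg α q' v j u‖ ^ 2) P := by
    intro q' hm' j u
    have sm := sm_of _ (hm' j u)
    refine ⟨Integrable.of_bound sm.aestronglyMeasurable _
      (Eventually.of_forall fun v => cg_bound hD hO α q' v j u), ?_⟩
    refine Integrable.of_bound (sm.norm.pow 2).aestronglyMeasurable ((‖q'‖ ^ j * ‖u‖) ^ 2)
      (Eventually.of_forall fun v => ?_)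
    rw [norm_pow, norm_norm]
    exact pow_le_pow_left₀ (norm_nonneg _) (cg_bound hD hO α q' v j u) 2
  obtain ⟨ir, er⟩ := RR_exp ν hO hD hC hS hc X hX h hm (opr X u)
  have ir2 : Integrable (fun v => opr X (RR X h v (opr X u))) P :=
    (opr X).integrable_comp ir
  have er2 : ∫ v, opr X (RR X h v (opr X u)) ∂P = opr X (opr (GS ν X h) (opr X u)) := by
    rw [(opr X).integral_comp_comm ir, er]
  set F : ((Fin d → ℤ) → ℝ) → ℂ := fun v => (inner ℂ w (opr X u) -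
    inner ℂ w (opr X (RR X h v (opr X u)))) - (α : ℂ) *
      ∑ j ∈ Finset.range (2 * n + 1), (-1) ^ j * inner ℂ w (cg α q v j u) with hF
  have iw : ∀ j, Integrable (fun v => inner ℂ w (cg α q v j u)) P := fun j =>
    (ic q c1 j u).1.const_inner w
  have iF : ∫ v, F v ∂P = (inner ℂ w (opr X u) -
      inner ℂ w (opr X (opr (GS ν X h) (opr X u)))) - (α : ℂ) *
      ∑ j ∈ Finset.range (2 * n + 1), (-1) ^ j * ∫ v, inner ℂ w (cg α q v j u) ∂P := by
    rw [hF, integral_sub, integral_sub, integral_const_mul, integral_finsetSum, integral_inner ir2,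
      er2]
    · simp only [integral_const_mul, integral_const]
      simp
    · intro j _
      exact (iw j).const_mul _
    · exact integrable_const _
    · exact ir2.const_inner w
    · exact (integrable_const _).sub (ir2.const_inner w)
    · exact (integrable_finsetSum _ fun j _ => (iw j).const_mul _).const_mul _
  have hK : ‖∫ v, F v ∂P‖ ≤ α * (b * κ) * (‖w‖ * ‖u‖) := by
    have hw0 : 0 < ‖w‖ := norm_pos_iff.2 hw
    have hu0 : 0 < ‖u‖ := norm_pos_iff.2 hu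
    have hg : Integrable (fun v => α ^ 2 / c * ((‖u‖ / ‖w‖) * ‖cg α (star q) v n w‖ ^ 2 +
        (‖w‖ / ‖u‖) * ‖cg α q v n u‖ ^ 2) / 2) P :=
      (((((ic _ s1 n w).2.const_mul _).add ((ic _ c1 n u).2.const_mul _)).const_mul _).div_const _)
    refine (norm_integral_le_of_norm_le hg ?_).trans ?_
    · filter_upwards [ae_Pn ν hν d] with v hv
      have e1 := main_id hO hD hC hα X h h0 hm hv n
      have e2 := congrArg (fun T : l2 (Fin d → ℤ) →L[ℂ] l2 (Fin d → ℤ) => inner ℂ w (T u)) e1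
      have e3 : inner ℂ w ((opr X - opr X * RR X h v * opr X) u) =
          inner ℂ w (opr X u) - inner ℂ w (opr X (RR X h v (opr X u))) := by
        simp only [ContinuousLinearMap.sub_apply, ContinuousLinearMap.mul_apply, inner_sub_right]
      have e4 : inner ℂ w (((α : ℂ) • ((∑ j ∈ Finset.range (2 * n + 1),
          (-1) ^ j * cg α (qS α X h0) v j) - cg α (qS α X h0) v n * ((α : ℂ) • RR X h v) *
            cg α (qS α X h0) v n)) u) = (α : ℂ) * ((∑ j ∈ Finset.range (2 * n + 1),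
          (-1) ^ j * inner ℂ w (cg α q v j u)) - (α : ℂ) *
            inner ℂ (cg α (star q) v n w) (RR X h v (cg α q v n u))) := by
        rw [← cg_adj hD hO hS α]
        simp only [ContinuousLinearMap.smul_apply, ContinuousLinearMap.sub_apply,
          ContinuousLinearMap.mul_apply, inner_smul_right, inner_sub_right]
        congr 2
        · rw [ContinuousLinearMap.sum_apply, inner_sum]
          refine Finset.sum_congr rfl fun j _ => ?_
          rcases Nat.even_or_odd j with hj | hj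
          · rw [hj.neg_one_pow, hj.neg_one_pow, one_mul, one_mul]
          · rw [hj.neg_one_pow, hj.neg_one_pow, neg_one_mul, neg_one_mul,
              ContinuousLinearMap.neg_apply, inner_neg_right]
        · rw [map_smul, inner_smul_right]
      rw [e3, e4] at e2
      have e5 : F v = -((α : ℂ) * ((α : ℂ) *
          inner ℂ (cg α (star q) v n w) (RR X h v (cg α q v n u)))) := by
        simp only [hF]
        rw [e2]
        ring
      rw [e5, norm_neg, norm_mul, norm_mul, Complex.norm_real, Real.norm_of_nonneg hα.le]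
      have e6 := norm_inner_le_norm (𝕜 := ℂ) (cg α (star q) v n w) (RR X h v (cg α q v n u))
      have e7 := RR_norm hO hD hC hS hα hc X hX h hm hv (cg α q v n u)
      have e8 : ‖cg α (star q) v n w‖ * ‖cg α q v n u‖ ≤ ((‖u‖ / ‖w‖) * ‖cg α (star q) v n w‖ ^ 2 +
        (‖w‖ / ‖u‖) * ‖cg α q v n u‖ ^ 2) / 2 := by
        have : ((‖u‖ / ‖w‖) * ‖cg α (star q) v n w‖ ^ 2 +
            (‖w‖ / ‖u‖) * ‖cg α q v n u‖ ^ 2) / 2 - ‖cg α (star q) v n w‖ * ‖cg α q v n u‖ =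
            (‖u‖ * ‖cg α (star q) v n w‖ - ‖w‖ * ‖cg α q v n u‖) ^ 2 / (2 * (‖w‖ * ‖u‖)) := by
          field_simp
          ring
        have h9 : 0 ≤ (‖u‖ * ‖cg α (star q) v n w‖ - ‖w‖ * ‖cg α q v n u‖) ^ 2 /
            (2 * (‖w‖ * ‖u‖)) := by positivity
        linarith
      calc α * (α * ‖inner ℂ (cg α (star q) v n w) (RR X h v (cg α q v n u))‖)
          ≤ α * (α * (‖cg α (star q) v n w‖ * (‖cg α q v n u‖ / c))) := by
            gcongr
            exact e6.trans (mul_le_mul_of_nonneg_left e7 (norm_nonneg _))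
        _ = α ^ 2 / c * (‖cg α (star q) v n w‖ * ‖cg α q v n u‖) := by
            field_simp
        _ ≤ α ^ 2 / c * (((‖u‖ / ‖w‖) * ‖cg α (star q) v n w‖ ^ 2 +
            (‖w‖ / ‖u‖) * ‖cg α q v n u‖ ^ 2) / 2) := by gcongr
        _ = _ := by ring
    · have i1 := s2 n w hn
      have i2 := c2 n u hn
      have e1 : ∫ v, (α ^ 2 / c * ((‖u‖ / ‖w‖) * ‖cg α (star q) v n w‖ ^ 2 +
          (‖w‖ / ‖u‖) * ‖cg α q v n u‖ ^ 2) / 2) ∂P =
          α ^ 2 / c * ((‖u‖ / ‖w‖) * (∫ v, ‖cg α (star q) v n w‖ ^ 2 ∂P) +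
          (‖w‖ / ‖u‖) * ∫ v, ‖cg α q v n u‖ ^ 2 ∂P) / 2 := by
        rw [integral_div, integral_const_mul, integral_add ((ic _ s1 n w).2.const_mul _)
          ((ic _ c1 n u).2.const_mul _), integral_const_mul, integral_const_mul]
      rw [e1]
      calc α ^ 2 / c * ((‖u‖ / ‖w‖) * (∫ v, ‖cg α (star q) v n w‖ ^ 2 ∂P) +
          (‖w‖ / ‖u‖) * ∫ v, ‖cg α q v n u‖ ^ 2 ∂P) / 2
          ≤ α ^ 2 / c * ((‖u‖ / ‖w‖) * (2 * ((4 * n * κ) ^ n) ^ 2 * ‖w‖ ^ 2) +
          (‖w‖ / ‖u‖) * (2 * ((4 * n * κ) ^ n) ^ 2 * ‖u‖ ^ 2)) / 2 := by gcongr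
        _ = α * (α / c * (2 * ((4 * n * κ) ^ n) ^ 2)) * (‖w‖ * ‖u‖) := by
            field_simp
            ring
        _ ≤ α * (b * κ) * (‖w‖ * ‖u‖) := by gcongr
  -- the operator
  have eT : inner ℂ w (opr (X - X * GS ν X h * X + ((α : ℂ) * s₂ * ∫ p, (α : ℂ) / X p) • 1) u) =
      (inner ℂ w (opr X u) - inner ℂ w (opr X (opr (GS ν X h) (opr X u)))) +
        ((α : ℂ) * s₂ * ∫ p, (α : ℂ) / X p) * inner ℂ w u := by
    have : opr (X - X * GS ν X h * X + ((α : ℂ) * s₂ * ∫ p, (α : ℂ) / X p) • 1) =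
        opr X - opr X * opr (GS ν X h) * opr X + ((α : ℂ) * s₂ * ∫ p, (α : ℂ) / X p) • 1 := by
      rw [← OA_apply hO, map_add, map_sub, map_mul, map_mul, map_smul, map_one]
      rfl
    rw [this]
    simp only [ContinuousLinearMap.sub_apply, ContinuousLinearMap.add_apply,
      ContinuousLinearMap.smul_apply, ContinuousLinearMap.one_apply,
      ContinuousLinearMap.mul_apply, inner_sub_right, inner_add_right, inner_smul_right]
  have esum : ∑ j ∈ Finset.range (2 * n + 1), (-1) ^ j * ∫ v, inner ℂ w (cg α q v j u) ∂P =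
      -(s₂ * (∫ p, (α : ℂ) / X p) * inner ℂ w u) +
        ∑ j ∈ Finset.Ico 2 (2 * n + 1), (-1) ^ j * ∫ v, inner ℂ w (cg α q v j u) ∂P := by
    rw [Finset.range_eq_Ico, Finset.sum_eq_sum_Ico_succ_bot (by omega),
      Finset.sum_eq_sum_Ico_succ_bot (by omega), c5, c4]
    simp only [pow_zero, mul_zero, zero_add, pow_one, neg_one_mul]
    rfl
  have eT2 : inner ℂ w (opr (X - X * GS ν X h * X + ((α : ℂ) * s₂ * ∫ p, (α : ℂ) / X p) • 1) u) =
      (∫ v, F v ∂P) + (α : ℂ) *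
        ∑ j ∈ Finset.Ico 2 (2 * n + 1), (-1) ^ j * ∫ v, inner ℂ w (cg α q v j u) ∂P := by
    rw [eT, iF, esum]
    ring
  rw [eT2]
  have hsum : ‖∑ j ∈ Finset.Ico 2 (2 * n + 1), (-1) ^ j * ∫ v, inner ℂ w (cg α q v j u) ∂P‖ ≤
      (2 * b * (24 * κ)) * (‖w‖ * ‖u‖) := by
    calc ‖∑ j ∈ Finset.Ico 2 (2 * n + 1), (-1) ^ j * ∫ v, inner ℂ w (cg α q v j u) ∂P‖
        ≤ ∑ j ∈ Finset.Ico 2 (2 * n + 1), ‖(-1) ^ j * ∫ v, inner ℂ w (cg α q v j u) ∂P‖ :=
          norm_sum_le _ _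
      _ ≤ ∑ j ∈ Finset.Ico 2 (2 * n + 1), (2 * b * (4 * κ * (j * (1 / 2) ^ (j - 2)))) * (‖w‖ * ‖u‖) := by
          refine Finset.sum_le_sum fun j hj => ?_
          rw [Finset.mem_Ico] at hj
          rw [norm_mul, norm_pow, norm_neg, norm_one, one_pow, one_mul]
          refine (c3 j u w (by omega)).trans ?_
          have hj2 : (j : ℝ) ≤ 2 * n := by
            have : j ≤ 2 * n := by omega
            exact_mod_cast this
          have h6 : 4 * (j : ℝ) * κ ≤ 1 / 2 := by nlinarith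
          have h7 : (4 * (j : ℝ) * κ) ^ (j - 1) ≤ 4 * κ * (j * (1 / 2) ^ (j - 2)) := by
            obtain ⟨i, rfl⟩ : ∃ i, j = i + 2 := ⟨j - 2, by omega⟩
            rw [show i + 2 - 1 = i + 1 by omega, show i + 2 - 2 = i by omega, pow_succ]
            have h8 : (4 * ((i + 2 : ℕ) : ℝ) * κ) ^ i ≤ (1 / 2) ^ i :=
              pow_le_pow_left₀ (by positivity) h6 _
            calc (4 * ((i + 2 : ℕ) : ℝ) * κ) ^ i * (4 * ((i + 2 : ℕ) : ℝ) * κ)
                ≤ (1 / 2) ^ i * (4 * ((i + 2 : ℕ) : ℝ) * κ) := by gcongr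
              _ = _ := by ring
          gcongr
      _ = 2 * b * (4 * κ * ∑ j ∈ Finset.Ico 2 (2 * n + 1), (j : ℝ) * (1 / 2) ^ (j - 2)) * (‖w‖ * ‖u‖) := by
          rw [← Finset.sum_mul, ← Finset.mul_sum, ← Finset.mul_sum]
      _ ≤ (2 * b * (24 * κ)) * (‖w‖ * ‖u‖) := by
          have h7 := geo2 (2 * n - 1)
          rw [show 2 * n - 1 + 2 = 2 * n + 1 by omega] at h7
          have h8 : ∑ j ∈ Finset.Ico 2 (2 * n + 1), (j : ℝ) * (1 / 2 : ℝ) ^ (j - 2) ≤ 6 := by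
            rw [h7]
            have : (0 : ℝ) ≤ 2 * (((2 * n - 1 : ℕ) : ℝ) + 3) * (1 / 2) ^ (2 * n - 1) := by positivity
            linarith
          have h9 : 4 * κ * ∑ j ∈ Finset.Ico 2 (2 * n + 1), (j : ℝ) * (1 / 2 : ℝ) ^ (j - 2)
              ≤ 24 * κ := by nlinarith
          gcongr
  refine (norm_add_le _ _).trans ?_
  rw [norm_mul, Complex.norm_real, Real.norm_of_nonneg hα.le]
  have hwu : 0 ≤ ‖w‖ * ‖u‖ := by positivity
  calc ‖∫ v, F v ∂P‖ + α * ‖∑ j ∈ Finset.Ico 2 (2 * n + 1),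
        (-1) ^ j * ∫ v, inner ℂ w (cg α q v j u) ∂P‖
      ≤ α * (b * κ) * (‖w‖ * ‖u‖) + α * ((2 * b * (24 * κ)) * (‖w‖ * ‖u‖)) := by
        gcongr
    _ = (49 * α * b * κ) * (‖w‖ * ‖u‖) := by ring

end

end Pool.Agent.N896.KS
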